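import Pool.Agent.H53.GC.Targets

/-!
Board bpg_modules, row MXP: mixed families at two pairs.
-/

set_option autoImplicit false

namespace Pool.Agent.H34.BPG

open Pool.Agent.H68.BP Pool.Agent.H58.SF Pool.Agent.H53.GC
open Classical

section fam

variable {V X : Type} {σ : Sig} [LinearOrder V]

theorem pat_mem {Y : Type} (P : Y → Prop) (r : Fin 3) (x y : Y) (hx : P x) (hy : P y)
    (i : Fin 6) : P (pat r x y i) := by
  have h := pat_apply r x y i
  rw [h]
  fin_cases r <;> fin_cases i <;> first | exact hx | exact hy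

/-- the binary families preserve the relations -/
theorem bf_fam (hV : T_VAL) (hC : T_CNS) (𝔸 : Str σ V) (M : ℕ) (c : V → V → X)
    (fr : X → X → X) (L Rt : X → X) (h : (Fin 6 → V) → (Fin 6 → V) → X)
    (hS : Setup 𝔸 M c fr L Rt) (hG : GoodMap 𝔸 M c h) (hT : TypeInv c h) {k : ℕ}
    (lb : Fin k → Fin 3) (fb : Prop) (r : Fin 3)
    (h2 : ∀ i j, lb i = 2 → lb j = 2 → i = j) :
    Fam (Rk 𝔸 M c k) (Fin 2) (Bf c fr L Rt h lb fb r) := by
  intro l p hp
  have h1 := hV σ V X 𝔸 M c fr L Rt h hS hG hT k (strat fb r lb) l (pat r (p 0) (p 1))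
    (fun i => pat_mem (fun q => Rk 𝔸 M c k l q) r (p 0) (p 1) (hp 0) (hp 1) i)
    (hC X k (fun i => ∃ a, l.2 a = i) lb fb r (pat r (p 0) (p 1)) h2
      (Or.inl ⟨p 0, p 1, fun _ => rfl⟩))
  have h3 : (fun e => Bf c fr L Rt h lb fb r e (fun i => p i e)) =
      (fun e => famOf c fr L Rt h (strat fb r lb) e (fun i => pat r (p 0) (p 1) i e)) := by
    funext e
    unfold Bf
    refine congrArg (famOf c fr L Rt h (strat fb r lb) e) ?_
    funext i
    exact (pat_map (fun q : Prs k → X => q e) r (p 0) (p 1) i).symm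
  rw [h3]
  exact h1

/-- the families with six arguments preserve the relations -/
theorem hf_fam (hV : T_VAL) (hC : T_CNS) (𝔸 : Str σ V) (M : ℕ) (c : V → V → X)
    (fr : X → X → X) (L Rt : X → X) (h : (Fin 6 → V) → (Fin 6 → V) → X)
    (hS : Setup 𝔸 M c fr L Rt) (hG : GoodMap 𝔸 M c h) (hT : TypeInv c h) {k : ℕ}
    (lb : Fin k → Fin 3) (h2 : ∀ i j, lb i = 2 → lb j = 2 → i = j) (h1 : ∀ i, lb i ≠ 1) :
    Fam (Rk 𝔸 M c k) (Fin 6) (Hf c fr L Rt h lb) := by
  intro l p hp
  exact hV σ V X 𝔸 M c fr L Rt h hS hG hT k (strat False 0 lb) l p hp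
    (hC X k (fun i => ∃ a, l.2 a = i) lb False 0 p h2 (Or.inr ⟨h1, fun hf => hf⟩))

theorem strat_zero {k : ℕ} (fb : Prop) (r : Fin 3) (lb : Fin k → Fin 3) (i : Fin k)
    (t : Fin 6 → X) (hi : lb i = 0) : strat fb r lb i t = id := by
  unfold strat
  rw [if_pos hi]

theorem strat_one {k : ℕ} (fb : Prop) (r : Fin 3) (lb : Fin k → Fin 3) (i : Fin k)
    (t : Fin 6 → X) (hi : lb i = 1) : strat fb r lb i t = kS r := by
  unfold strat
  rw [if_neg (by rw [hi]; decide), if_pos hi]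

theorem strat_two {k : ℕ} (fb : Prop) (r : Fin 3) (lb : Fin k → Fin 3) (i : Fin k)
    (t : Fin 6 → X) (hi : lb i = 2) (ht : ∀ l l', t l = t l') :
    strat fb r lb i t = fun _ => 0 := by
  unfold strat
  rw [if_neg (by rw [hi]; decide), if_neg (by rw [hi]; decide), if_pos ht]

/-- without special blocks the shapes do not depend on the order -/
theorem strat_gen {k : ℕ} (r r' : Fin 3) (lb lb' : Fin k → Fin 3) (i : Fin k)
    (t : Fin 6 → X) (hi : lb i = lb' i) (h1 : lb i ≠ 1) :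
    strat False r lb i t = strat False r' lb' i t := by
  unfold strat
  rw [← hi]
  by_cases h0 : lb i = 0
  · rw [if_pos h0, if_pos h0]
  · rw [if_neg h0, if_neg h0, if_neg h1, if_neg h1, if_neg (fun hf : False => hf),
      if_neg (fun hf : False => hf)]

theorem famOf_pair (c : V → V → X) (fr : X → X → X) (L Rt : X → X)
    (h : (Fin 6 → V) → (Fin 6 → V) → X) {k : ℕ} (Λ : Fin k → (Fin 6 → X) → Fin 6 → Fin 6)
    (e : Prs k) (he : e.1.1 ≠ e.1.2) (w : Fin 6 → X) :
    famOf c fr L Rt h Λ e w =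
      f2 c fr L Rt h (Λ e.1.1 (fun l => L (w l))) (Λ e.1.2 (fun l => Rt (w l))) w := by
  unfold famOf
  rw [if_neg he]

end fam

theorem pair_ne {k : ℕ} (e : Prs k) (he : ∀ v, e ≠ vsK v) : e.1.1 ≠ e.1.2 := by
  intro h
  refine he e.1.1 (Subtype.ext ?_)
  unfold vsK
  exact Prod.ext rfl h.symm

theorem common_unique {k : ℕ} (e e' : Prs k) (he : ∀ v, e ≠ vsK v) (hee : e ≠ e')
    {u v : Fin k} (hu : StK u e ∧ StK u e') (hv : StK v e ∧ StK v e') : u = v := by
  by_contra huv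
  have h1 := pair_ne e he
  have h2 := e.2
  have h3 := e'.2
  unfold StK at hu hv
  refine hee (Subtype.ext (Prod.ext ?_ ?_))
  · obtain ⟨hu1, hu2⟩ := hu
    obtain ⟨hv1, hv2⟩ := hv
    rw [Fin.ext_iff] at *
    rw [Fin.le_def] at h2 h3
    have h1' : (e.1.1 : ℕ) ≠ e.1.2 := fun h => h1 (Fin.ext h)
    omega
  · obtain ⟨hu1, hu2⟩ := hu
    obtain ⟨hv1, hv2⟩ := hv
    rw [Fin.ext_iff] at *
    rw [Fin.le_def] at h2 h3
    have h1' : (e.1.1 : ℕ) ≠ e.1.2 := fun h => h1 (Fin.ext h)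
    omega

theorem pf_MXP (hV : T_VAL) (hC : T_CNS) (hE : Pool.Agent.H53.GC.T_EX) : T_MXP := by
  intro σ V X _ 𝔸 M c fr L Rt h hS hG hT k e e' he he' hee
  have hne := pair_ne e he
  have hne' := pair_ne e' he'
  set lD : Fin k → Fin 3 := fun v => if StK v e ∧ StK v e' then 2 else 1 with hlD
  set lH : Fin k → Fin 3 := fun v => if StK v e ∧ StK v e' then 2 else 0 with hlH
  set lG : Fin k → Fin 3 := fun v => if StK v e ∧ StK v e' then 2 else
    if StK v e then 1 else 0 with hlG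
  have hDc : ∀ v, StK v e ∧ StK v e' → lD v = 2 := fun v hv => by rw [hlD]; exact if_pos hv
  have hDn : ∀ v, ¬ (StK v e ∧ StK v e') → lD v = 1 := fun v hv => by rw [hlD]; exact if_neg hv
  have hHc : ∀ v, StK v e ∧ StK v e' → lH v = 2 := fun v hv => by rw [hlH]; exact if_pos hv
  have hHn : ∀ v, ¬ (StK v e ∧ StK v e') → lH v = 0 := fun v hv => by rw [hlH]; exact if_neg hv
  have hGc : ∀ v, StK v e ∧ StK v e' → lG v = 2 := fun v hv => by rw [hlG]; exact if_pos hv
  have hG1 : ∀ v, ¬ (StK v e ∧ StK v e') → StK v e → lG v = 1 := fun v hv hv' => by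
    rw [hlG]
    exact (if_neg hv).trans (if_pos hv')
  have hG0 : ∀ v, ¬ (StK v e ∧ StK v e') → ¬ StK v e → lG v = 0 := fun v hv hv' => by
    rw [hlG]
    exact (if_neg hv).trans (if_neg hv')
  have hD2 : ∀ v, lD v = 2 → StK v e ∧ StK v e' := by
    intro v hv
    by_contra hn
    rw [hDn v hn] at hv
    exact absurd hv (by decide)
  have hH2 : ∀ v, lH v = 2 → StK v e ∧ StK v e' := by
    intro v hv
    by_contra hn
    rw [hHn v hn] at hv
    exact absurd hv (by decide)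
  have hG2 : ∀ v, lG v = 2 → StK v e ∧ StK v e' := by
    intro v hv
    by_contra hn
    by_cases hs : StK v e
    · rw [hG1 v hn hs] at hv
      exact absurd hv (by decide)
    · rw [hG0 v hn hs] at hv
      exact absurd hv (by decide)
  have hH1 : ∀ v, lH v ≠ 1 := by
    intro v hv
    by_cases hn : StK v e ∧ StK v e'
    · rw [hHc v hn] at hv
      exact absurd hv (by decide)
    · rw [hHn v hn] at hv
      exact absurd hv (by decide)
  refine ⟨Bf c fr L Rt h lD True 0, Hf c fr L Rt h lH, fun r => Bf c fr L Rt h lG False r,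
    bf_fam hV hC 𝔸 M c fr L Rt h hS hG hT lD True 0
      (fun i j hi hj => common_unique e e' he hee (hD2 i hi) (hD2 j hj)),
    hf_fam hV hC 𝔸 M c fr L Rt h hS hG hT lH
      (fun i j hi hj => common_unique e e' he hee (hH2 i hi) (hH2 j hj)) hH1,
    fun r => bf_fam hV hC 𝔸 M c fr L Rt h hS hG hT lG False r
      (fun i j hi hj => common_unique e e' he hee (hG2 i hi) (hG2 j hj)), ?_, ?_⟩
  · intro r w hw
    have hi := hw e.1.1 (Or.inl rfl)
    have hj := hw e.1.2 (Or.inr rfl)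
    unfold rdK at hi hj
    rw [if_neg hne, if_neg hne, if_pos rfl, if_pos rfl] at hi
    rw [if_neg hne, if_neg hne, if_neg hne, if_neg hne] at hj
    obtain ⟨-, hE2, hE3, hE4⟩ := hE σ V X 𝔸 M c fr L Rt h hG hT r (w 0) (w 1)
    have hconst : ∀ (φ : X → X), φ (w 0) = φ (w 1) → ∀ (r' : Fin 3) (l l' : Fin 6),
        φ (pat r' (w 0) (w 1) l) = φ (pat r' (w 0) (w 1) l') := by
      intro φ hφ r' l l'
      have h1 : ∀ i, φ (pat r' (w 0) (w 1) i) = φ (w 1) := fun i =>
        pat_mem (fun z => φ z = φ (w 1)) r' (w 0) (w 1) hφ rfl i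
      rw [h1 l, h1 l']
    change famOf c fr L Rt h (strat False r lG) e (pat r (w 0) (w 1)) =
      famOf c fr L Rt h (strat True 0 lD) e (pat 0 (w 0) (w 1))
    rw [famOf_pair c fr L Rt h _ e hne, famOf_pair c fr L Rt h _ e hne]
    by_cases h1 : StK e.1.1 e ∧ StK e.1.1 e'
    · have h2 : ¬ (StK e.1.2 e ∧ StK e.1.2 e') := fun h2 => hne (common_unique e e' he hee h1 h2)
      rw [strat_two False r lG e.1.1 _ (hGc _ h1) (hconst L hi r),
        strat_one False r lG e.1.2 _ (hG1 _ h2 (Or.inr rfl)),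
        strat_two True 0 lD e.1.1 _ (hDc _ h1) (hconst L hi 0),
        strat_one True 0 lD e.1.2 _ (hDn _ h2)]
      exact hE3 hi
    · by_cases h2 : StK e.1.2 e ∧ StK e.1.2 e'
      · rw [strat_one False r lG e.1.1 _ (hG1 _ h1 (Or.inl rfl)),
          strat_two False r lG e.1.2 _ (hGc _ h2) (hconst Rt hj r),
          strat_one True 0 lD e.1.1 _ (hDn _ h1),
          strat_two True 0 lD e.1.2 _ (hDc _ h2) (hconst Rt hj 0)]
        exact hE4 hj
      · rw [strat_one False r lG e.1.1 _ (hG1 _ h1 (Or.inl rfl)),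
          strat_one False r lG e.1.2 _ (hG1 _ h2 (Or.inr rfl)),
          strat_one True 0 lD e.1.1 _ (hDn _ h1),
          strat_one True 0 lD e.1.2 _ (hDn _ h2)]
        exact hE2
  · intro r w _
    change famOf c fr L Rt h (strat False r lG) e' (pat r (w 0) (w 1)) =
      famOf c fr L Rt h (strat False 0 lH) e' (pat r (w 0) (w 1))
    rw [famOf_pair c fr L Rt h _ e' hne', famOf_pair c fr L Rt h _ e' hne']
    have hkey : ∀ v, StK v e' → lG v = lH v ∧ lG v ≠ 1 := by
      intro v hv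
      by_cases hc : StK v e ∧ StK v e'
      · rw [hGc v hc, hHc v hc]
        exact ⟨rfl, by decide⟩
      · have hn : ¬ StK v e := fun hn => hc ⟨hn, hv⟩
        rw [hG0 v hc hn, hHn v hc]
        exact ⟨rfl, by decide⟩
    obtain ⟨ha, ha'⟩ := hkey e'.1.1 (Or.inl rfl)
    obtain ⟨hb, hb'⟩ := hkey e'.1.2 (Or.inr rfl)
    rw [strat_gen r 0 lG lH e'.1.1 _ ha ha', strat_gen r 0 lG lH e'.1.2 _ hb hb']

end Pool.Agent.H34.BPG
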