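import Pool.Agent.H53.GC.Targets

/-!
Board bpg_modules, row RE1: correctness of the reduction.
-/

set_option autoImplicit false

namespace Pool.Agent.H34.BPG

open Pool.Agent.H68.BP Pool.Agent.H58.SF Pool.Agent.H53.GC

/-- ranks -/
theorem exists_rank {n m : ℕ} (z : Fin m → Fin n) :
    ∃ τ : Fin m → Fin m, ∀ a b, z a ≤ z b ↔ τ a ≤ τ b := by
  classical
  set S : Finset (Fin n) := Finset.univ.image z with hS
  have hcard : S.card ≤ m := by
    refine Finset.card_image_le.trans ?_
    rw [Finset.card_univ, Fintype.card_fin]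
  have hmem : ∀ a, z a ∈ S := fun a => Finset.mem_image_of_mem z (Finset.mem_univ a)
  refine ⟨fun a => Fin.castLE hcard ((S.orderIsoOfFin rfl).symm ⟨z a, hmem a⟩), fun a b => ?_⟩
  rw [Fin.castLE_le_castLE_iff, OrderIso.le_iff_le]
  exact Iff.rfl

/-- the realization of small sets -/
theorem small_sets {V X : Type} [LinearOrder V] (n M : ℕ) (c : V → V → X)
    (q : Fin (n + M) → Fin (n + M) → X × Bool)
    (hq : ∀ y : Fin M → Fin (n + M), (∀ a b, y a ≤ y b ↔ a ≤ b) →
      ∃ x : Fin M → V, ∀ a b, a ≤ b → (q (y a) (y b)).1 = c (x a) (x b))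
    (m : ℕ) (s : Fin m → Fin n) (hm : m ≤ M) (hs : StrictMono s) :
    ∃ v : Fin m → V, ∀ i j, i ≤ j → c (v i) (v j) =
      (q (Fin.castAdd M (s i)) (Fin.castAdd M (s j))).1 := by
  set y : Fin M → Fin (n + M) := fun a =>
    if h : a.1 < m then Fin.castAdd M (s ⟨a.1, h⟩) else Fin.natAdd n a with hy
  have hmono : StrictMono y := by
    intro a b hab
    rw [Fin.lt_def] at hab
    rw [Fin.lt_def, hy]
    by_cases ha : a.1 < m
    · by_cases hb : b.1 < m
      · have h1 : s ⟨a.1, ha⟩ < s ⟨b.1, hb⟩ := hs (Fin.lt_def.2 hab)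
        simp only [dif_pos ha, dif_pos hb, Fin.val_castAdd]
        exact Fin.lt_def.1 h1
      · have h1 := (s ⟨a.1, ha⟩).2
        simp only [dif_pos ha, dif_neg hb, Fin.val_castAdd, Fin.val_natAdd]
        omega
    · have hb : ¬ b.1 < m := by omega
      simp only [dif_neg ha, dif_neg hb, Fin.val_natAdd]
      omega
  obtain ⟨x, hx⟩ := hq y (fun a b => hmono.le_iff_le)
  refine ⟨fun i => x ⟨i.1, lt_of_lt_of_le i.2 hm⟩, fun i j hij => ?_⟩
  have h1 := hx ⟨i.1, lt_of_lt_of_le i.2 hm⟩ ⟨j.1, lt_of_lt_of_le j.2 hm⟩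
    (Fin.le_def.2 (Fin.le_def.1 hij))
  have h2 : ∀ i : Fin m, y ⟨i.1, lt_of_lt_of_le i.2 hm⟩ = Fin.castAdd M (s i) := by
    intro i
    rw [hy]
    exact dif_pos i.2
  rw [h2 i, h2 j] at h1
  exact h1.symm

theorem pf_RE1 : T_RE1 := by
  intro σ V X _ 𝔸 M c fr L Rt hS n 𝕏
  constructor
  · rintro ⟨f, hf⟩
    obtain ⟨v0⟩ := hS.ne
    set F : Fin (n + M) → V := Fin.addCases f (fun _ => v0) with hF
    have hFc : ∀ i, F (Fin.castAdd M i) = f i := fun i => by rw [hF]; exact Fin.addCases_left i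
    refine ⟨fun i j => (c (F i) (F j), decide (i = j)), fun s y τ hrel hτ => ?_⟩
    have heq : ∀ a b, y a = y b ↔ τ a = τ b := fun a b => by
      rw [le_antisymm_iff, le_antisymm_iff, hτ a b, hτ b a]
    refine ⟨fun a => F (y a), ?_, fun a b hab => congrArg F ((heq a b).2 hab), fun a b _ => ?_⟩
    · cases s with
      | none => trivial
      | some l =>
        obtain ⟨z, hz, hyz⟩ := hrel
        have h1 : 𝔸 l (fun i => f (z i)) := hf l z hz
        have h2 : (fun i => f (z i)) = (fun a => F (y a)) := by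
          funext i
          rw [hyz]
          exact (hFc (z i)).symm
        exact Eq.mp (congrArg (𝔸 l) h2) h1
    · refine Prod.ext rfl ?_
      exact decide_eq_decide.2 (heq a b)
  · rintro ⟨q, hq⟩
    have hsm := small_sets (V := V) n M c q (fun y hy => by
      obtain ⟨x, -, -, hx⟩ := hq none y id trivial (fun a b => hy a b)
      refine ⟨x, fun a b hab => ?_⟩
      have h1 := hx a b hab
      exact congrArg Prod.fst h1)
    obtain ⟨f, hfm, hf⟩ := hS.univ n
      (fun i j => (q (Fin.castAdd M i) (Fin.castAdd M j)).1)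
      (fun m s hm hs _ => hsm m s hm hs)
    refine ⟨f, fun l z hz => ?_⟩
    obtain ⟨τ, hτ⟩ := exists_rank z
    obtain ⟨x, hx1, hx2, hx3⟩ := hq (some l) (fun a => Fin.castAdd M (z a)) τ ⟨z, hz, rfl⟩
      (fun a b => by
        refine Iff.trans ?_ (hτ a b)
        rw [Fin.le_def, Fin.le_def]
        exact Iff.rfl)
    refine hS.split l x (fun i => f (z i)) hx1 (fun a b hab => ?_) (fun a b hab => ?_)
    · have h1 : z a ≤ z b := hfm.le_iff_le.1 hab
      have h2 := hf (z a) (z b) h1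
      have h3 := congrArg Prod.fst (hx3 a b ((hτ a b).1 h1))
      rw [h2]
      exact h3
    · have h1 : z a = z b := hfm.injective hab
      refine hx2 a b (le_antisymm ((hτ a b).1 h1.le) ((hτ b a).1 h1.ge))

end Pool.Agent.H34.BPG
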